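import Mathlib
import Pool.Agent.H932R3.Empty
import Pool.Agent.TH15.NagEmpGeneric

/-! Ending B: general collisions in every characteristic from one collision over one field. -/

set_option autoImplicit false

namespace Pool.Agent.TH545.CF

open Polynomial Pool.Agent.H932R2 Pool.Agent.H932R3

universe u v

/-- the generic germ, over the integers -/
noncomputable def gZ (r : ℕ) : (MvPolynomial (Fin (r + 1)) ℤ)[X] :=
  ∑ j : Fin r, C (MvPolynomial.X j.succ) * X ^ (j : ℕ)

/-- the entries of the matrix of conditions of a collision -/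
noncomputable def entC (r : ℕ) (p s : ℕ × ℕ) : MvPolynomial (Fin (r + 1)) ℤ :=
  ((sh (MvPolynomial.X 0 : MvPolynomial (Fin (r + 1)) ℤ) (gZ r)
    (C (X ^ s.1) * X ^ s.2)).coeff p.2).coeff p.1

theorem entC_aeval {K : Type v} [Field K] {r : ℕ} (c : K) (a : Fin r → K) (p s : ℕ × ℕ) :
    MvPolynomial.aeval (Fin.cons c a : Fin (r + 1) → K) (entC r p s) =
      ((sh c (∑ j : Fin r, C (a j) * X ^ (j : ℕ)) (mon K s)).coeff p.2).coeff p.1 := by
  obtain ⟨φ, hφ⟩ : ∃ φ : MvPolynomial (Fin (r + 1)) ℤ →+* K,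
      φ = (MvPolynomial.aeval (Fin.cons c a : Fin (r + 1) → K) :
        MvPolynomial (Fin (r + 1)) ℤ →ₐ[ℤ] K) := ⟨_, rfl⟩
  have h := map_sh φ (MvPolynomial.X 0 : MvPolynomial (Fin (r + 1)) ℤ) (gZ r)
    (C (X ^ s.1) * X ^ s.2)
  have h1 : (C (X ^ s.1) * X ^ s.2 : (MvPolynomial (Fin (r + 1)) ℤ)[X][X]).map (mapRingHom φ) =
      mon K s := by
    simp [mon]
  have h2 : φ (MvPolynomial.X 0) = c := by
    rw [hφ, RingHom.coe_coe, MvPolynomial.aeval_X, Fin.cons_zero]
  have h3 : (gZ r).map φ = ∑ j : Fin r, C (a j) * X ^ (j : ℕ) := by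
    unfold gZ
    rw [Polynomial.map_sum]
    refine Finset.sum_congr rfl fun j _ => ?_
    rw [Polynomial.map_mul, map_C, Polynomial.map_pow, map_X, hφ, RingHom.coe_coe,
      MvPolynomial.aeval_X, Fin.cons_succ]
  rw [h1, h2, h3] at h
  rw [← h, coeff_map, coe_mapRingHom, coeff_map, hφ]
  rfl

theorem jetIdeal_eq {K : Type v} [Field K] {r : ℕ} (m : ℕ) (c : K) (a : Fin r → K) :
    jetIdeal m c a = cIdeal (fun _ : Fin r => c) (∑ j : Fin r, C (a j) * X ^ (j : ℕ)) m := by
  unfold jetIdeal cIdeal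
  rw [rootPoly_const]

theorem mem_jetIdeal {K : Type v} [Field K] {r m : ℕ} {c : K} {a : Fin r → K} {N : ℕ}
    (e : Fin N → ℕ × ℕ) (v : Fin N → K) :
    (∑ s, v s • mon K (e s)) ∈ jetIdeal m c a ↔
      ∀ p : EE r m, ∑ s, MvPolynomial.aeval (Fin.cons c a : Fin (r + 1) → K) (entC r p.1 (e s)) *
        v s = 0 := by
  rw [jetIdeal_eq, mem_cIdeal_iff']
  constructor
  · intro h p
    have h1 := congrFun h p
    rw [map_sum, Finset.sum_apply, Pi.zero_apply] at h1
    rw [← h1]
    refine Finset.sum_congr rfl fun s _ => ?_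
    rw [map_smul, Pi.smul_apply, smul_eq_mul, entC_aeval, mul_comm]
    rfl
  · intro h
    funext p
    rw [map_sum, Finset.sum_apply, Pi.zero_apply, ← h p]
    refine Finset.sum_congr rfl fun s _ => ?_
    rw [map_smul, Pi.smul_apply, smul_eq_mul, entC_aeval, mul_comm]
    rfl

theorem noForm_iff' {K : Type v} [Field K] {J : Ideal K[X][X]} {d : ℕ} :
    NoForm J d ↔ ∀ v : Fin (Tfin d).card → K, (∑ s, v s • mon K (enumM (Tfin d) s)) ∈ J →
      v = 0 := by
  constructor
  · intro h v hv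
    have h1 : ∑ i, v i • mon K (enumM (Tfin d) i) ∈ mspan K (Tset d) := by
      rw [← coe_Tfin]
      exact Submodule.sum_mem _ fun i _ => Submodule.smul_mem _ _
        (Submodule.subset_span ⟨_, enumM_mem (Tfin d) i, rfl⟩)
    obtain ⟨F, hF, hF'⟩ := exists_form h1
    have h2 := h F hF (by rw [hF']; exact hv)
    rw [h2, map_zero] at hF'
    exact funext fun i => mspan_eq_zero v hF'.symm i
  · intro h F hF hF'
    have h2 := deh_mem_mspan (d := d) hF
    rw [← coe_Tfin, mem_mspan_iff] at h2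
    obtain ⟨a, ha⟩ := h2
    rw [coordMap_apply] at ha
    have h3 := h a (by rw [ha]; exact hF')
    refine deh_eq_zero (d := d) hF ?_
    rw [← ha, h3]
    simp

/-- emptiness passes from one collision to general collisions over every field of the same
characteristic -/
theorem coll_transfer {K : Type v} [Field K] {L : Type u} [Field L] (p : ℕ) [CharP K p]
    [CharP L p] {r m d : ℕ} {c0 : K} {a0 : Fin r → K} (h : NoForm (jetIdeal m c0 a0) d) :
    ∃ F : MvPolynomial (Fin (r + 1)) L, F ≠ 0 ∧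
      ∀ (c : L) (a : Fin r → L), MvPolynomial.eval (Fin.cons c a : Fin (r + 1) → L) F ≠ 0 →
        NoForm (jetIdeal m c a) d := by
  classical
  obtain ⟨b, hb⟩ := Pool.Agent.TH15.Nag.exists_rows
    (fun (q : EE r m) (s : Fin (Tfin d).card) =>
      MvPolynomial.aeval (Fin.cons c0 a0 : Fin (r + 1) → K) (entC r q.1 (enumM (Tfin d) s))) (by
    intro v hv
    exact noForm_iff'.1 h v ((mem_jetIdeal _ v).2 hv))
  let D : MvPolynomial (Fin (r + 1)) ℤ :=
    (Matrix.of fun (j s : Fin (Tfin d).card) => entC r (b j).1 (enumM (Tfin d) s)).det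
  have hDK : MvPolynomial.aeval (Fin.cons c0 a0 : Fin (r + 1) → K) D ≠ 0 := by
    intro h0
    apply hb
    rw [← h0]
    show _ = (MvPolynomial.aeval (Fin.cons c0 a0 : Fin (r + 1) → K)) (Matrix.det _)
    rw [AlgHom.map_det]
    rfl
  refine ⟨MvPolynomial.map (Int.castRingHom L) D, ?_, fun c a hc => ?_⟩
  · intro h1
    apply hDK
    have h2 : ∀ α, ((MvPolynomial.coeff α D : ℤ) : K) = 0 := by
      intro α
      have h3 := congrArg (MvPolynomial.coeff α) h1
      rw [MvPolynomial.coeff_map, MvPolynomial.coeff_zero, eq_intCast,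
        CharP.intCast_eq_zero_iff L p] at h3
      rw [CharP.intCast_eq_zero_iff K p]
      exact h3
    have h3 : MvPolynomial.map (Int.castRingHom K) D = 0 := by
      ext α
      rw [MvPolynomial.coeff_map, MvPolynomial.coeff_zero]
      exact h2 α
    have h4 : MvPolynomial.aeval (Fin.cons c0 a0 : Fin (r + 1) → K) D =
        MvPolynomial.eval (Fin.cons c0 a0 : Fin (r + 1) → K)
          (MvPolynomial.map (Int.castRingHom K) D) := by
      rw [MvPolynomial.eval_map, MvPolynomial.aeval_def]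
      congr 1
    rw [h4, h3, map_zero]
  · have hdet : (Matrix.of fun (j s : Fin (Tfin d).card) =>
        MvPolynomial.aeval (Fin.cons c a : Fin (r + 1) → L)
          (entC r (b j).1 (enumM (Tfin d) s))).det ≠ 0 := by
      intro h0
      apply hc
      have h4 : MvPolynomial.eval (Fin.cons c a : Fin (r + 1) → L)
          (MvPolynomial.map (Int.castRingHom L) D) =
          MvPolynomial.aeval (Fin.cons c a : Fin (r + 1) → L) D := by
        rw [MvPolynomial.eval_map, MvPolynomial.aeval_def]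
        congr 1
      rw [h4, ← h0]
      show (MvPolynomial.aeval (Fin.cons c a : Fin (r + 1) → L)) (Matrix.det _) = _
      rw [AlgHom.map_det]
      rfl
    refine noForm_iff'.2 fun v hv => ?_
    rw [mem_jetIdeal] at hv
    apply Matrix.eq_zero_of_mulVec_eq_zero hdet
    funext j
    rw [Matrix.mulVec, dotProduct, Pi.zero_apply]
    exact hv (b j)

/-- all degrees up to `m √r` at once -/
theorem coll_end (p : ℕ) {k : Type u} [Field k] [CharP k p] {r m : ℕ}
    (h : ∀ d : ℕ, (d : ℝ) ≤ m * Real.sqrt r →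
      ∃ (L : Type) (_ : Field L) (_ : CharP L p) (c : L) (a : Fin r → L),
        ∀ P : MvPolynomial (Fin 3) L, P.IsHomogeneous d →
          (MvPolynomial.aeval ![C X, X, 1] : MvPolynomial (Fin 3) L →ₐ[L] L[X][X]) P ∈
            (Ideal.span {X - C (∑ j : Fin r, C (a j) * X ^ (j : ℕ)), C ((X - C c) ^ r)} :
              Ideal L[X][X]) ^ m → P = 0) :
    ∃ F : MvPolynomial (Fin (r + 1)) k, F ≠ 0 ∧
      ∀ (c : k) (a : Fin r → k), MvPolynomial.eval (Fin.cons c a : Fin (r + 1) → k) F ≠ 0 →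
        ∀ d : ℕ, (d : ℝ) ≤ m * Real.sqrt r → ∀ P : MvPolynomial (Fin 3) k, P.IsHomogeneous d →
          (MvPolynomial.aeval ![C X, X, 1] : MvPolynomial (Fin 3) k →ₐ[k] k[X][X]) P ∈
            (Ideal.span {X - C (∑ j : Fin r, C (a j) * X ^ (j : ℕ)), C ((X - C c) ^ r)} :
              Ideal k[X][X]) ^ m → P = 0 := by
  have hpos : 0 ≤ (m : ℝ) * Real.sqrt r := by positivity
  obtain ⟨L, _, _, c0, a0, h0⟩ := h ⌊(m : ℝ) * Real.sqrt r⌋₊ (Nat.floor_le hpos)
  obtain ⟨F, hF, hF'⟩ := coll_transfer (L := k) p (r := r) (m := m) (c0 := c0) (a0 := a0)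
    (d := ⌊(m : ℝ) * Real.sqrt r⌋₊) (fun P hP hP' => h0 P hP hP')
  exact ⟨F, hF, fun c a hc d hd P hP hP' =>
    (hF' c a hc).mono (Nat.le_floor hd) P hP hP'⟩

end Pool.Agent.TH545.CF
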