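import Mathlib
import Pool.Agent.H519R3.AC.Wald
import Pool.Agent.TH15.NagEmpGeneric

/-! Emptiness at one configuration over one field of characteristic `p` implies emptiness at
generic points over every field of characteristic `p`. -/

set_option autoImplicit false

namespace Pool.Agent.TH545.CF

open MvPolynomial Pool.Agent.H932R5

universe u v

section gen
variable {E n : ℕ}

/-- translation at the `i`-th generic point, over the integers -/
noncomputable def gsZ (E n : ℕ) (i : Fin n) :
    MvPolynomial (Fin (E + 1)) ℤ →+*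
      MvPolynomial (Fin (E + 1)) (MvPolynomial (Fin n × Fin (E + 1)) ℤ) :=
  eval₂Hom (C.comp C) (fun j => X j + C (X (i, j)))

theorem map_gsZ {K : Type v} [Field K] (i : Fin n) (P : Fin n → Fin (E + 1) → K)
    (f : MvPolynomial (Fin (E + 1)) ℤ) :
    map ((aeval (fun q : Fin n × Fin (E + 1) => P q.1 q.2) :
      MvPolynomial (Fin n × Fin (E + 1)) ℤ →ₐ[ℤ] K) :
      MvPolynomial (Fin n × Fin (E + 1)) ℤ →+* K) (gsZ E n i f) =
      shift (P i) (map (Int.castRingHom K) f) := by
  have h : (map ((aeval (fun q : Fin n × Fin (E + 1) => P q.1 q.2) :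
      MvPolynomial (Fin n × Fin (E + 1)) ℤ →ₐ[ℤ] K) :
      MvPolynomial (Fin n × Fin (E + 1)) ℤ →+* K)).comp (gsZ E n i) =
      (shift (P i) : MvPolynomial (Fin (E + 1)) K →+* MvPolynomial (Fin (E + 1)) K).comp
        (map (Int.castRingHom K)) := by
    refine MvPolynomial.ringHom_ext (fun c => ?_) fun j => ?_
    · simp
    · rw [RingHom.comp_apply, gsZ, eval₂Hom_X', map_add, map_X, map_C, RingHom.comp_apply,
        map_X, RingHom.coe_coe, aeval_X, RingHom.coe_coe, shift_X]
  exact congrArg (fun φ : MvPolynomial (Fin (E + 1)) ℤ →+* MvPolynomial (Fin (E + 1)) K => φ f) h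

/-- the entries of the matrix of conditions -/
noncomputable def ent {w : Fin n → ℕ} (q : Cnd E w) (s : Fin (E + 1) →₀ ℕ) :
    MvPolynomial (Fin n × Fin (E + 1)) ℤ :=
  coeff q.2.1 (gsZ E n q.1 (monomial s 1))

theorem ent_aeval {K : Type v} [Field K] {w : Fin n → ℕ} (P : Fin n → Fin (E + 1) → K)
    (q : Cnd E w) (s : Fin (E + 1) →₀ ℕ) :
    aeval (fun r : Fin n × Fin (E + 1) => P r.1 r.2) (ent q s) =
      cnd w P (monomial s 1) q := by
  have h := map_gsZ q.1 P (monomial s 1)
  rw [map_monomial, RingHom.map_one (Int.castRingHom K)] at h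
  rw [cnd_apply, ← h, coeff_map]
  rfl

theorem sum_mono {K : Type v} [Field K] {d : ℕ} {f : MvPolynomial (Fin (E + 1)) K}
    (hf : ∀ α, coeff α f ≠ 0 → α ∈ Td E d) :
    f = ∑ s : {s // s ∈ dg E (d + 1)}, (coeff s.1 f) • monomial s.1 (1 : K) := by
  classical
  conv_lhs => rw [f.as_sum]
  rw [← Finset.sum_subtype (dg E (d + 1)) (p := fun s => s ∈ dg E (d + 1)) (fun s => Iff.rfl)
    (fun s => (coeff s f) • monomial s (1 : K))]
  have hsub : f.support ⊆ dg E (d + 1) := by
    intro s hs
    have h1 := hf s (mem_support_iff.1 hs)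
    rw [← coe_dg] at h1
    exact h1
  rw [Finset.sum_subset hsub]
  · exact Finset.sum_congr rfl fun s _ => by rw [smul_monomial, smul_eq_mul, mul_one]
  · intro s _ hs
    rw [notMem_support_iff.1 hs, monomial_zero]

theorem cnd_expand {K : Type v} [Field K] {w : Fin n → ℕ} (P : Fin n → Fin (E + 1) → K) {d : ℕ}
    {f : MvPolynomial (Fin (E + 1)) K} (hf : ∀ α, coeff α f ≠ 0 → α ∈ Td E d) (q : Cnd E w) :
    cnd w P f q = ∑ s : {s // s ∈ dg E (d + 1)},
      aeval (fun r : Fin n × Fin (E + 1) => P r.1 r.2) (ent q s.1) * coeff s.1 f := by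
  conv_lhs => rw [sum_mono hf]
  rw [map_sum, Finset.sum_apply]
  refine Finset.sum_congr rfl fun s _ => ?_
  rw [map_smul, Pi.smul_apply, smul_eq_mul, ent_aeval, mul_comm]

/-- emptiness passes from one configuration to generic points over every field of the same
characteristic -/
theorem emptyAt_transfer {K : Type v} [Field K] {L : Type u} [Field L] (p : ℕ) [CharP K p]
    [CharP L p] {w : Fin n → ℕ} {d : ℕ} {x : Fin n → Fin (E + 1) → K} (hx : EmptyAt w x d)
    {P : Fin n → Fin (E + 1) → L}
    (hP : AlgebraicIndependent (⊥ : Subfield L) (fun q : Fin n × Fin (E + 1) => P q.1 q.2)) :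
    EmptyAt w P d := by
  classical
  obtain ⟨a, ha⟩ := Pool.Agent.TH15.Nag.exists_rows
    (fun (q : Cnd E w) (s : {s // s ∈ dg E (d + 1)}) =>
      aeval (fun r : Fin n × Fin (E + 1) => x r.1 r.2) (ent q s.1)) (by
    intro c hc
    obtain ⟨f, hf⟩ : ∃ f : MvPolynomial (Fin (E + 1)) K,
        f = ∑ s : {s // s ∈ dg E (d + 1)}, monomial s.1 (c s) := ⟨_, rfl⟩
    have hfc : ∀ s : {s // s ∈ dg E (d + 1)}, coeff s.1 f = c s := by
      intro s
      rw [hf, coeff_sum, Finset.sum_eq_single s]
      · rw [coeff_monomial, if_pos rfl]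
      · intro t _ hts
        rw [coeff_monomial, if_neg]
        intro h
        exact hts (Subtype.ext h)
      · intro h
        exact absurd (Finset.mem_univ s) h
    have hfs : ∀ α, coeff α f ≠ 0 → α ∈ Td E d := by
      intro α hα
      rw [← coe_dg, Finset.mem_coe]
      by_contra hn
      apply hα
      rw [hf, coeff_sum]
      refine Finset.sum_eq_zero fun t _ => ?_
      rw [coeff_monomial, if_neg]
      rintro rfl
      exact hn t.2
    have h0 : f = 0 := by
      refine hx f ?_ hfs
      rw [mem_Z_iff]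
      funext q
      rw [cnd_expand x hfs q, Pi.zero_apply, ← hc q]
      exact Finset.sum_congr rfl fun s _ => by rw [hfc]
    funext s
    rw [← hfc s, h0]
    rfl)
  let D : MvPolynomial (Fin n × Fin (E + 1)) ℤ :=
    (Matrix.of fun (j : {s // s ∈ dg E (d + 1)}) (s : {s // s ∈ dg E (d + 1)}) =>
      ent (a j) s.1).det
  have hDK : aeval (fun r : Fin n × Fin (E + 1) => x r.1 r.2) D ≠ 0 := by
    intro h0
    apply ha
    rw [← h0]
    show _ = (aeval (fun r : Fin n × Fin (E + 1) => x r.1 r.2)) (Matrix.det _)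
    rw [AlgHom.map_det]
    rfl
  have hDL : aeval (fun r : Fin n × Fin (E + 1) => P r.1 r.2) D ≠ 0 := by
    intro h0
    apply hDK
    -- all coefficients are divisible by `p`
    have h1 : map (Int.castRingHom (⊥ : Subfield L)) D = 0 := by
      apply (algebraicIndependent_iff.1 hP)
      rw [← h0]
      rw [aeval_def, aeval_def, eval₂_map]
      congr 1
    have h2 : ∀ α, ((coeff α D : ℤ) : K) = 0 := by
      intro α
      have h3 := congrArg (coeff α) h1
      rw [coeff_map, coeff_zero] at h3
      have h4 : ((coeff α D : ℤ) : L) = 0 := by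
        have := congrArg (algebraMap (⊥ : Subfield L) L) h3
        simpa using this
      rw [CharP.intCast_eq_zero_iff L p] at h4
      rw [CharP.intCast_eq_zero_iff K p]
      exact h4
    have h3 : map (Int.castRingHom K) D = 0 := by
      ext α
      rw [coeff_map, coeff_zero]
      exact h2 α
    have h4 : aeval (fun r : Fin n × Fin (E + 1) => x r.1 r.2) D =
        eval (fun r : Fin n × Fin (E + 1) => x r.1 r.2) (map (Int.castRingHom K) D) := by
      rw [eval_map, aeval_def]
      congr 1
    rw [h4, h3, map_zero]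
  have hdet : (Matrix.of fun (j : {s // s ∈ dg E (d + 1)}) (s : {s // s ∈ dg E (d + 1)}) =>
      aeval (fun r : Fin n × Fin (E + 1) => P r.1 r.2) (ent (a j) s.1)).det ≠ 0 := by
    intro h0
    apply hDL
    show (aeval (fun r : Fin n × Fin (E + 1) => P r.1 r.2)) (Matrix.det _) = _
    rw [AlgHom.map_det, ← h0]
    rfl
  intro f hf hfs
  have hvec : (fun s : {s // s ∈ dg E (d + 1)} => coeff s.1 f) = 0 := by
    apply Matrix.eq_zero_of_mulVec_eq_zero hdet
    funext j
    have h1 := cnd_expand P hfs (a j)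
    rw [mem_Z_iff.1 hf, Pi.zero_apply] at h1
    rw [Matrix.mulVec, dotProduct]
    exact h1.symm
  rw [sum_mono hfs]
  refine Finset.sum_eq_zero fun s _ => ?_
  have := congrFun hvec s
  simp only [Pi.zero_apply] at this
  rw [this, zero_smul]

end gen

end Pool.Agent.TH545.CF
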