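import Mathlib
import Pool.Agent.TH545.CF.Gen

/-! Ending A: generic points and Waldschmidt constants in every characteristic. -/

set_option autoImplicit false

namespace Pool.Agent.TH545.CF

open MvPolynomial Filter Topology Pool.Agent.H932R5 Pool.Agent.H519R3.AC

universe u v

/-- no nonzero form of degree `d` vanishes to order `w i` at `(1 : P i 0 : P i 1)` for all `i` -/
def NoForm {k : Type u} [Field k] {n : ℕ} (P : Fin n → Fin 2 → k) (w : Fin n → ℕ) (d : ℕ) : Prop :=
  ∀ F : MvPolynomial (Fin 3) k, F.IsHomogeneous d →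
    (∀ i, F ∈ (Ideal.span {X 1 - C (P i 0) * X 0, X 2 - C (P i 1) * X 0} :
      Ideal (MvPolynomial (Fin 3) k)) ^ (w i)) → F = 0

theorem noForm_iff {k : Type u} [Field k] {n : ℕ} {P : Fin n → Fin 2 → k} {w : Fin n → ℕ} {d : ℕ} :
    NoForm P w d ↔ EmptyAt (E := 1) w P d := by
  constructor
  · intro h f hf hfs
    obtain ⟨F, hF, rfl⟩ := deh_surj (E := 1) (mem_mspan.2 hfs)
    have h1 : F ∈ Vd (E := 1) d w P := mem_Vd.2 ⟨hF, hf⟩
    rw [h F hF, map_zero]
    intro i
    unfold Vd at h1
    rw [Submodule.mem_inf, Submodule.restrictScalars_mem, Ideal.mem_iInf] at h1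
    rw [← hI_plane]
    exact h1.2 i
  · intro h F hF hi
    have h1 : F ∈ Vd (E := 1) d w P := by
      unfold Vd
      rw [Submodule.mem_inf, mem_homogeneousSubmodule, Submodule.restrictScalars_mem,
        Ideal.mem_iInf]
      refine ⟨hF, fun i => ?_⟩
      rw [hI_plane]
      exact hi i
    rw [h.bot, Submodule.mem_bot] at h1
    exact h1

/-- from one configuration in characteristic `p` to generic points in characteristic `p` -/
theorem NoForm.generic (p : ℕ) {K : Type v} [Field K] [CharP K p] {k : Type u} [Field k]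
    [CharP k p] {n : ℕ} {x : Fin n → Fin 2 → K} {w : Fin n → ℕ} {d : ℕ} (h : NoForm x w d)
    {P : Fin n → Fin 2 → k}
    (hP : AlgebraicIndependent (⊥ : Subfield k) (fun ij : Fin n × Fin 2 => P ij.1 ij.2)) :
    NoForm P w d :=
  noForm_iff.2 (emptyAt_transfer (E := 1) p (noForm_iff.1 h) hP)

/-- the least degree at generic points from the emptiness at one configuration -/
theorem alp_ge (p : ℕ) {k : Type u} [Field k] [CharP k p] {r : ℕ}
    (h : ∀ (d m : ℕ), (d : ℝ) < m * Real.sqrt r →
      ∃ (K : Type) (_ : Field K) (_ : CharP K p) (x : Fin r → Fin 2 → K), NoForm x (fun _ => m) d)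
    {P : Fin r → Fin 2 → k}
    (hP : AlgebraicIndependent (⊥ : Subfield k) (fun ij : Fin r × Fin 2 => P ij.1 ij.2)) (m : ℕ) :
    (m : ℝ) * Real.sqrt r ≤ alp P m := by
  by_contra hcon
  rw [not_le] at hcon
  obtain ⟨K, _, _, x, hx⟩ := h _ m hcon
  obtain ⟨F, hFd, hF, hm⟩ := hasForm_alp P m
  exact hF (hx.generic p hP F hFd hm)

/-- the Waldschmidt constant of generic points from the emptiness at one configuration -/
theorem wald_eq (p : ℕ) {k : Type u} [Field k] [CharP k p] {r : ℕ}
    (h : ∀ (d m : ℕ), (d : ℝ) < m * Real.sqrt r →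
      ∃ (K : Type) (_ : Field K) (_ : CharP K p) (x : Fin r → Fin 2 → K), NoForm x (fun _ => m) d)
    {P : Fin r → Fin 2 → k}
    (hP : AlgebraicIndependent (⊥ : Subfield k) (fun ij : Fin r × Fin 2 => P ij.1 ij.2)) :
    Tendsto (fun m : ℕ => (alp P m : ℝ) / m) atTop (𝓝 (Real.sqrt r)) := by
  obtain ⟨e, he1, he2, he3⟩ := exists_wald P (c := Real.sqrt r)
    (fun m _ => by rw [mul_comm]; exact alp_ge p h hP m)
  rwa [le_antisymm he3 he2] at he1

end Pool.Agent.TH545.CF
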