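import Mathlib
import Pool.Agent.TH545.CF.EndA
import Pool.Agent.TH716.CF.KeyA
import Pool.Agent.TH98.CF.Chain

/-! Nagata's theorem at generic points in every characteristic. -/

set_option autoImplicit false

namespace Pool.Agent.TH545.CF

open MvPolynomial Filter Topology Pool.Agent.H519R3.AC

universe u

/-- one empty configuration in every characteristic -/
theorem noForm_exists {p : ℕ} (hp : p = 0 ∨ p.Prime) {r : ℕ} (hr : 9 ≤ r) {w : Fin r → ℕ} {d : ℕ}
    (h : Real.sqrt r * d < ∑ i, (w i : ℝ)) :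
    ∃ (K : Type) (_ : Field K) (_ : CharP K p) (x : Fin r → Fin 2 → K), NoForm x w d := by
  have e : (∑ _i : Fin r, 1 : ℕ) = r := by simp
  obtain ⟨τ, h0, h1, hE⟩ := Pool.Agent.TH98.CF.strict hp (ι := Fin r) (r := fun _ => 1) (w := w)
    (d := d) (by rw [e]; exact hr) (by
      rw [e]
      simpa using h)
  obtain ⟨K, i1, i2, x, hx⟩ := Pool.Agent.TH716.CF.key_points h0 h1 hE
  exact ⟨K, i1, i2, x, hx⟩

/-- all multiplicities -/
theorem sum_le {k : Type u} [Field k] {r : ℕ} (hr : 9 ≤ r) {P : Fin r → Fin 2 → k}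
    (hP : AlgebraicIndependent (⊥ : Subfield k) (fun ij : Fin r × Fin 2 => P ij.1 ij.2))
    (w : Fin r → ℕ) (d : ℕ) (F : MvPolynomial (Fin 3) k) (hF : F.IsHomogeneous d) (hne : F ≠ 0)
    (hi : ∀ i, F ∈ (Ideal.span {X 1 - C (P i 0) * X 0, X 2 - C (P i 1) * X 0} :
      Ideal (MvPolynomial (Fin 3) k)) ^ (w i)) : ∑ i, (w i : ℝ) ≤ Real.sqrt r * d := by
  by_contra hcon
  rw [not_le] at hcon
  obtain ⟨p, hp⟩ := CharP.exists k
  have hp' : p = 0 ∨ p.Prime := (CharP.char_is_prime_or_zero k p).symm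
  obtain ⟨K, _, _, x, hx⟩ := noForm_exists hp' hr hcon
  exact hne (hx.generic p hP F hF hi)

theorem sqrt_mul_lt {r m d : ℕ} (hr : 0 < r) (h : (d : ℝ) < m * Real.sqrt r) :
    Real.sqrt r * d < ∑ _i : Fin r, (m : ℝ) := by
  rw [Finset.sum_const, Finset.card_univ, Fintype.card_fin, nsmul_eq_mul]
  have hrR : (0 : ℝ) < r := by exact_mod_cast hr
  have hs : 0 < Real.sqrt r := Real.sqrt_pos.2 hrR
  have hss : Real.sqrt r * Real.sqrt r = r := Real.mul_self_sqrt hrR.le
  calc Real.sqrt r * d < Real.sqrt r * (m * Real.sqrt r) := mul_lt_mul_of_pos_left h hs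
    _ = (Real.sqrt r * Real.sqrt r) * m := by ring
    _ = r * m := by rw [hss]

theorem alp_ge_all {k : Type u} [Field k] {r : ℕ} (hr : 9 ≤ r) {P : Fin r → Fin 2 → k}
    (hP : AlgebraicIndependent (⊥ : Subfield k) (fun ij : Fin r × Fin 2 => P ij.1 ij.2)) (m : ℕ) :
    (m : ℝ) * Real.sqrt r ≤ alp P m := by
  obtain ⟨p, hp⟩ := CharP.exists k
  have hp' : p = 0 ∨ p.Prime := (CharP.char_is_prime_or_zero k p).symm
  exact alp_ge p (fun d m h => noForm_exists hp' hr (sqrt_mul_lt (by omega) h)) hP m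

theorem wald_all {k : Type u} [Field k] {r : ℕ} (hr : 9 ≤ r) {P : Fin r → Fin 2 → k}
    (hP : AlgebraicIndependent (⊥ : Subfield k) (fun ij : Fin r × Fin 2 => P ij.1 ij.2)) :
    Tendsto (fun m : ℕ => (alp P m : ℝ) / m) atTop (𝓝 (Real.sqrt r)) := by
  obtain ⟨p, hp⟩ := CharP.exists k
  have hp' : p = 0 ∨ p.Prime := (CharP.char_is_prime_or_zero k p).symm
  exact wald_eq p (fun d m h => noForm_exists hp' hr (sqrt_mul_lt (by omega) h)) hP

end Pool.Agent.TH545.CF
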