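import Mathlib
import Pool.Agent.TH603.EL.Defs

/-! Emptiness in a fixed characteristic, with multiplicities given by powers of the ideals of the
points; the transfer principle. -/

set_option autoImplicit false

namespace Pool.Agent.TH545.CF

open Pool.Agent.TH603.EL
open Pool.Agent.TH176.Nag (evL evL_mon)

section ci
variable {F : Type} [Field F]

/-- the Hahn series with all coefficients in the ideal `I` -/
noncomputable def CI (I : Ideal (Lau F)) : Ideal (HR F) where
  carrier := {u | ∀ a, u.coeff a ∈ I}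
  add_mem' := fun {u v} hu hv a => by
    rw [HahnSeries.coeff_add]
    exact I.add_mem (hu a) (hv a)
  zero_mem' := fun a => by
    rw [HahnSeries.coeff_zero]
    exact I.zero_mem
  smul_mem' := fun c u hu a => by
    rw [smul_eq_mul, HahnSeries.coeff_mul]
    exact I.sum_mem fun ij _ => I.mul_mem_left _ (hu _)

theorem mem_CI {I : Ideal (Lau F)} {u : HR F} : u ∈ CI I ↔ ∀ a, u.coeff a ∈ I := Iff.rfl

theorem CI_mul (I J : Ideal (Lau F)) : CI I * CI J ≤ CI (I * J) := by
  rw [Ideal.mul_le]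
  intro u hu v hv a
  rw [HahnSeries.coeff_mul]
  exact Ideal.sum_mem _ fun ij _ => Ideal.mul_mem_mul (hu _) (hv _)

theorem CI_pow (I : Ideal (Lau F)) (w : ℕ) : CI I ^ w ≤ CI (I ^ w) := by
  induction w with
  | zero =>
    rw [Submodule.pow_zero, Submodule.pow_zero, Ideal.one_eq_top, Ideal.one_eq_top]
    intro u _ a
    exact Submodule.mem_top
  | succ w ih =>
    rw [Submodule.pow_succ, Submodule.pow_succ]
    exact (Ideal.mul_mono_left ih).trans (CI_mul _ _)

/-- the ideal of the point `(x, y)` of the torus -/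
noncomputable def ptI {x y : F} (hx : x ≠ 0) (hy : y ≠ 0) : Ideal (Lau F) :=
  RingHom.ker ((evL x y hx hy : Lau F →ₐ[F] F) : Lau F →+* F)

theorem mem_ptI {x y : F} {hx : x ≠ 0} {hy : y ≠ 0} {f : Lau F} :
    f ∈ ptI hx hy ↔ evL x y hx hy f = 0 := Iff.rfl

/-- the transfer principle -/
theorem transfer {A : Type*} [CommRing A] (Φ : A →+* HR F) {P : Ideal A} {x y : F} (hx : x ≠ 0)
    (hy : y ≠ 0) (h : ∀ f ∈ P, evp hx hy (Φ f) = 0) {w : ℕ} {f : A} (hf : f ∈ P ^ w) :
    Φ f ∈ CI (ptI hx hy ^ w) := by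
  apply CI_pow
  have h1 := Ideal.mem_map_of_mem Φ hf
  rw [Ideal.map_pow] at h1
  refine Ideal.pow_right_mono (Ideal.map_le_iff_le_comap.2 fun g hg a => ?_) w h1
  have h2 := congrArg (fun v : HK F => v.coeff a) (h g hg)
  exact h2

end ci

section hom
variable {L : Type} [Field L]

/-- a homomorphism of the Laurent polynomials to the constants, identical on the constants, is an
evaluation -/
theorem hom_eq_evL (Ψ : Lau L →+* L) (hc : ∀ c, Ψ (AddMonoidAlgebra.single 0 c) = c) :
    ∃ (x y : L) (hx : x ≠ 0) (hy : y ≠ 0), ∀ f, Ψ f = evL x y hx hy f := by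
  have hm : ∀ m m' : ℤ × ℤ, Ψ (AddMonoidAlgebra.single (m + m') 1) =
      Ψ (AddMonoidAlgebra.single m 1) * Ψ (AddMonoidAlgebra.single m' 1) := by
    intro m m'
    rw [← map_mul, AddMonoidAlgebra.single_mul_single, one_mul]
  have h0 : Ψ (AddMonoidAlgebra.single 0 1) = 1 := hc 1
  have hne : ∀ m : ℤ × ℤ, Ψ (AddMonoidAlgebra.single m 1) ≠ 0 := by
    intro m h
    have h1 := hm m (-m)
    rw [add_neg_cancel, h0, h, zero_mul] at h1
    exact one_ne_zero h1
  refine ⟨Ψ (AddMonoidAlgebra.single (1, 0) 1), Ψ (AddMonoidAlgebra.single (0, 1) 1),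
    hne _, hne _, ?_⟩
  -- the characters
  have key : ∀ m : ℤ × ℤ, Ψ (AddMonoidAlgebra.single m 1) =
      Ψ (AddMonoidAlgebra.single (1, 0) 1) ^ m.1 * Ψ (AddMonoidAlgebra.single (0, 1) 1) ^ m.2 := by
    have hp : ∀ (e : ℤ × ℤ) (k : ℤ), Ψ (AddMonoidAlgebra.single (k • e) 1) =
        Ψ (AddMonoidAlgebra.single e 1) ^ k := by
      intro e k
      induction k with
      | zero => rw [zero_smul, zpow_zero, h0]
      | succ k ih => rw [add_smul, one_smul, hm, ih, zpow_add₀ (hne e), zpow_one]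
      | pred k ih =>
        rw [sub_smul, one_smul, sub_eq_add_neg, hm, ih, zpow_sub₀ (hne e), zpow_one, div_eq_mul_inv]
        congr 1
        rw [eq_comm, inv_eq_iff_eq_inv, eq_comm]
        apply inv_eq_of_mul_eq_one_left
        rw [← hm, add_neg_cancel, h0]
    intro m
    have e : m = m.1 • (1, 0) + m.2 • (0, 1) := by ext <;> simp
    conv_lhs => rw [e]
    rw [hm, hp, hp]
  have h2 : Ψ = ((evL _ _ (hne (1, 0)) (hne (0, 1)) : Lau L →ₐ[L] L) : Lau L →+* L) := by
    refine AddMonoidAlgebra.ringHom_ext (fun c => ?_) fun m => ?_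
    · rw [hc, RingHom.coe_coe]
      have : (AddMonoidAlgebra.single 0 c : Lau L) = algebraMap L (Lau L) c := rfl
      rw [this, AlgHom.commutes]
      rfl
    · rw [key, RingHom.coe_coe]
      exact (evL_mon _ _ _ _ m).symm
  intro f
  conv_lhs => rw [h2]
  rfl

end hom

/-- for some points of the torus over some field of characteristic `p` there is no nonzero
Laurent polynomial with exponents in `S` in the `w i`-th power of the ideal of the `i`-th point
for all `i` -/
def Emp1 (p : ℕ) {ι : Type} (w : ι → ℕ) (S : Set (ℤ × ℤ)) : Prop :=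
  ∃ (K : Type) (_ : Field K) (_ : CharP K p) (x y : ι → K) (hx : ∀ i, x i ≠ 0)
    (hy : ∀ i, y i ≠ 0), ∀ f : Lau K, (↑f.coeff.support : Set (ℤ × ℤ)) ⊆ S →
      (∀ i, f ∈ ptI (hx i) (hy i) ^ (w i)) → f = 0

variable {p : ℕ} {ι : Type} {w : ι → ℕ} {S S' : Set (ℤ × ℤ)}

theorem Emp1.mono (h : Emp1 p w S') (hS : S ⊆ S') : Emp1 p w S := by
  obtain ⟨K, _, _, x, y, hx, hy, hf⟩ := h
  exact ⟨K, _, inferInstance, x, y, hx, hy, fun f h1 h2 => hf f (h1.trans hS) h2⟩

theorem charP_HK (p : ℕ) (K : Type) [Field K] [CharP K p] : CharP (HK K) p :=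
  charP_of_injective_ringHom (f := (HahnSeries.C : K →+* HK K)) HahnSeries.C_injective p

/-- the general degeneration principle -/
theorem Emp1.of_hom (h : Emp1 p w S') (Φ : ∀ (K : Type) [Field K], Lau (HK K) →+* HR K)
    (hc : ∀ (K : Type) [Field K] (c : HK K), Φ K (AddMonoidAlgebra.single 0 c) = incl c)
    (hl : ∀ (K : Type) [Field K] (f : Lau (HK K)), f ≠ 0 →
      (↑f.coeff.support : Set (ℤ × ℤ)) ⊆ S → ∃ (c : HR K) (a : ℝ), (c * Φ K f).coeff a ≠ 0 ∧
        ∀ m, ((c * Φ K f).coeff a).coeff m ≠ 0 → m ∈ S') : Emp1 p w S := by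
  obtain ⟨K, _, _, x, y, hx, hy, hf⟩ := h
  have hchar := charP_HK p K
  have hev : ∀ i, ∀ c : HK K, ((evp (hx i) (hy i)).comp (Φ K)) (AddMonoidAlgebra.single 0 c) = c := by
    intro i c
    rw [RingHom.comp_apply, hc]
    ext a
    rw [evp_coeff]
    have h1 : (incl c).coeff a = algebraMap K (Lau K) (c.coeff a) := by
      ext ⟨k, l⟩
      have := cf_incl c a k l
      unfold cf at this
      rw [this]
      have h2 : (algebraMap K (Lau K) (c.coeff a)).coeff (k, l) =
          (AddMonoidAlgebra.single (0 : ℤ × ℤ) (c.coeff a)).coeff (k, l) := rfl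
      rw [h2, AddMonoidAlgebra.coeff_single, Finsupp.single_apply]
      congr 1
      rw [Prod.ext_iff]
      simp only [Prod.fst_zero, Prod.snd_zero, eq_iff_iff]
      exact ⟨fun h => ⟨h.1.symm, h.2.symm⟩, fun h => ⟨h.1.symm, h.2.symm⟩⟩
    rw [h1, AlgHom.commutes]
    rfl
  choose X Y hX hY hXY using fun i => hom_eq_evL ((evp (hx i) (hy i)).comp (Φ K)) (hev i)
  refine ⟨HK K, inferInstance, hchar, X, Y, hX, hY, fun f hfS hfL => ?_⟩
  by_contra hne
  obtain ⟨c, a, h1, h2⟩ := hl K f hne hfS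
  apply h1
  apply hf
  · intro m hm
    exact h2 m (Finsupp.mem_support_iff.1 hm)
  · intro i
    have h3 : Φ K f ∈ CI (ptI (hx i) (hy i) ^ (w i)) := by
      refine transfer (Φ K) (hx i) (hy i) (fun g hg => ?_) (hfL i)
      rw [mem_ptI, ← hXY] at hg
      exact hg
    exact (CI _).mul_mem_left c h3 a

end Pool.Agent.TH545.CF
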