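import Mathlib
import Pool.Agent.TH545.CF.Pt
import Pool.Agent.TH98.CF.Flat
import Pool.Agent.TH176.Nag.Defs

/-! Moves for emptiness in a fixed characteristic. -/

set_option autoImplicit false

namespace Pool.Agent.TH545.CF

open Pool.Agent.TH603.EL
open Pool.Agent.TH176.Nag (evL evL_mon Reg)

theorem evL_const {L : Type} [Field L] {x y : L} (hx : x ≠ 0) (hy : y ≠ 0) (c : L) :
    evL x y hx hy (AddMonoidAlgebra.single 0 c) = c := by
  have : (AddMonoidAlgebra.single 0 c : Lau L) = algebraMap L (Lau L) c := rfl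
  rw [this, AlgHom.commutes]
  rfl

variable {p : ℕ} {ι : Type} {w : ι → ℕ} {S S' : Set (ℤ × ℤ)}

/-- integral affine changes of exponents with nonzero determinant -/
theorem Emp1.comap (h : Emp1 p w S') (a b c d u v : ℤ) (hdet : a * d - b * c ≠ 0)
    (hS : ∀ m ∈ S, (a * m.1 + b * m.2 + u, c * m.1 + d * m.2 + v) ∈ S') : Emp1 p w S := by
  classical
  obtain ⟨K, _, _, X, Y, hX, hY, hf⟩ := h
  let φ : ℤ × ℤ →+ ℤ × ℤ :=
    { toFun := fun m => (a * m.1 + b * m.2, c * m.1 + d * m.2)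
      map_zero' := by simp
      map_add' := fun m m' => by ext <;> simp <;> ring }
  have hφ : Function.Injective φ := by
    rintro ⟨q, r⟩ ⟨q', r'⟩ h
    simp only [φ, AddMonoidHom.coe_mk, ZeroHom.coe_mk, Prod.mk.injEq] at h
    obtain ⟨h1, h2⟩ := h
    have e1 : (a * d - b * c) * (q - q') = 0 := by linear_combination d * h1 - b * h2
    have e2 : (a * d - b * c) * (r - r') = 0 := by linear_combination a * h2 - c * h1
    have e3 := (mul_eq_zero.1 e1).resolve_left hdet
    have e4 := (mul_eq_zero.1 e2).resolve_left hdet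
    ext <;> simp <;> omega
  let Φ : Lau K →+* Lau K := AddMonoidAlgebra.mapDomainRingHom K φ
  have hΦs : ∀ m c, Φ (AddMonoidAlgebra.single m c) = AddMonoidAlgebra.single (φ m) c := by
    intro m c
    simp [Φ]
  have hΦc : ∀ f : Lau K, (Φ f).coeff = f.coeff.mapDomain φ := by
    intro f
    rfl
  have hx : ∀ i, X i ^ a * Y i ^ c ≠ 0 := fun i =>
    mul_ne_zero (zpow_ne_zero _ (hX i)) (zpow_ne_zero _ (hY i))
  have hy : ∀ i, X i ^ b * Y i ^ d ≠ 0 := fun i =>
    mul_ne_zero (zpow_ne_zero _ (hX i)) (zpow_ne_zero _ (hY i))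
  have hev : ∀ i, ∀ f : Lau K, evL (X i) (Y i) (hX i) (hY i) (Φ f) = evL _ _ (hx i) (hy i) f := by
    intro i f
    have h1 : ((evL (X i) (Y i) (hX i) (hY i) : Lau K →ₐ[K] K) : Lau K →+* K).comp Φ =
        ((evL _ _ (hx i) (hy i) : Lau K →ₐ[K] K) : Lau K →+* K) := by
      refine AddMonoidAlgebra.ringHom_ext (fun c => ?_) fun m => ?_
      · rw [RingHom.comp_apply, hΦs, map_zero, RingHom.coe_coe, RingHom.coe_coe, evL_const,
          evL_const]
      · rw [RingHom.comp_apply, hΦs]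
        have h2 := evL_mon (X i) (Y i) (hX i) (hY i) (φ m)
        have h3 := evL_mon _ _ (hx i) (hy i) m
        refine Eq.trans h2 (Eq.trans ?_ h3.symm)
        show X i ^ (a * m.1 + b * m.2) * Y i ^ (c * m.1 + d * m.2) = _
        rw [mul_zpow, mul_zpow, ← zpow_mul, ← zpow_mul, ← zpow_mul, ← zpow_mul,
          zpow_add₀ (hX i), zpow_add₀ (hY i)]
        ring
    exact congrArg (fun ψ : Lau K →+* K => ψ f) h1
  refine ⟨K, _, inferInstance, _, _, hx, hy, fun f hfS hfL => ?_⟩
  have h1 : (AddMonoidAlgebra.single (u, v) 1 : Lau K) * Φ f = 0 := by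
    apply hf
    · intro m hm
      rw [Finset.mem_coe, Finsupp.mem_support_iff, AddMonoidAlgebra.coeff_single_mul_apply,
        one_mul, hΦc, ← Finsupp.mem_support_iff] at hm
      have h2 := Finsupp.mapDomain_support hm
      rw [Finset.mem_image] at h2
      obtain ⟨m', hm', h3⟩ := h2
      have h4 := hS m' (hfS hm')
      have h5 : (a * m'.1 + b * m'.2 + u, c * m'.1 + d * m'.2 + v) = m := by
        have h6 : m = (u, v) + φ m' := by rw [h3]; abel
        rw [h6]
        ext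
        · show _ = u + (a * m'.1 + b * m'.2)
          ring
        · show _ = v + (c * m'.1 + d * m'.2)
          ring
      rwa [h5] at h4
    · intro i
      refine Ideal.mul_mem_left _ _ ?_
      have h2 := Ideal.mem_map_of_mem Φ (hfL i)
      rw [Ideal.map_pow] at h2
      refine Ideal.pow_right_mono (Ideal.map_le_iff_le_comap.2 fun g hg => ?_) (w i) h2
      rw [Ideal.mem_comap, mem_ptI, hev]
      exact hg
  have h2 : Φ f = 0 := by
    have h3 : (AddMonoidAlgebra.single (-u, -v) 1 : Lau K) *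
        ((AddMonoidAlgebra.single (u, v) 1 : Lau K) * Φ f) = Φ f := by
      rw [← mul_assoc, AddMonoidAlgebra.single_mul_single]
      simp only [Prod.mk_add_mk, neg_add_cancel, one_mul]
      exact one_mul _
    rw [← h3, h1, mul_zero]
  apply AddMonoidAlgebra.coeff_injective
  apply Finsupp.mapDomain_injective hφ
  rw [← hΦc, h2, AddMonoidAlgebra.coeff_zero, Finsupp.mapDomain_zero]

/-- the flattening lemma for the covector `(1, 0)` -/
theorem Emp1_flat0 (hS : ∀ a b b1 : ℤ, ((a, b) : ℤ × ℤ) ∈ S → ((a, b1) : ℤ × ℤ) ∈ S →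
      ∀ k : ℕ, (k : ℤ) ≤ b1 - b → ((a, (k : ℤ)) : ℤ × ℤ) ∈ S') (h : Emp1 p w S') :
    Emp1 p w S := by
  refine h.of_hom (fun K _ => Pool.Agent.TH98.CF.flatHom K) (fun K _ c => ?_) (fun K _ f hne hf => ?_)
  · rw [Pool.Agent.TH98.CF.flatHom_single]
    have h1 : tz K 0 0 0 = 1 := rfl
    simp only [Prod.fst_zero, Prod.snd_zero, zpow_zero, Units.val_one, mul_one]
    rw [h1, mul_one]
  · obtain ⟨r, h1, _, h2⟩ := Pool.Agent.TH98.CF.flat_lead hS hne hf
    exact ⟨1, r, by rw [one_mul]; exact h1, fun m hm => h2 m (by rwa [one_mul] at hm)⟩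

theorem Emp1_flat (x y u v : ℤ) (hdet : x * u + y * v = 1)
    (hS : ∀ (q : ℤ × ℤ) (T : ℤ) (k : ℕ), q ∈ S → (q.1 - y * T, q.2 + x * T) ∈ S → (k : ℤ) ≤ T →
      (x * q.1 + y * q.2, (k : ℤ)) ∈ S') (h : Emp1 p w S') : Emp1 p w S := by
  have h1 : Emp1 p w {m : ℤ × ℤ | (u * m.1 - y * m.2, v * m.1 + x * m.2) ∈ S} := by
    refine Emp1_flat0 ?_ h
    intro a b b1 hb hb1 k hk
    have h4 := hS (u * a - y * b, v * a + x * b) (b1 - b) k hb (by
        have e1 : u * a - y * b - y * (b1 - b) = u * a - y * b1 := by ring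
        have e2 : v * a + x * b + x * (b1 - b) = v * a + x * b1 := by ring
        simp only [e1, e2]
        exact hb1) hk
    have e3 : x * (u * a - y * b) + y * (v * a + x * b) = a := by
      linear_combination a * hdet
    simp only [e3] at h4
    exact h4
  refine h1.comap x y (-v) u 0 0 (by rw [show x * u - y * -v = x * u + y * v by ring, hdet]; exact one_ne_zero) ?_
  intro m hm
  show (u * (x * m.1 + y * m.2 + 0) - y * (-v * m.1 + u * m.2 + 0),
    v * (x * m.1 + y * m.2 + 0) + x * (-v * m.1 + u * m.2 + 0)) ∈ S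
  have e1 : u * (x * m.1 + y * m.2 + 0) - y * (-v * m.1 + u * m.2 + 0) = m.1 := by
    linear_combination m.1 * hdet
  have e2 : v * (x * m.1 + y * m.2 + 0) + x * (-v * m.1 + u * m.2 + 0) = m.2 := by
    linear_combination m.2 * hdet
  rw [e1, e2]
  exact hm

/-- the top vertex takes the largest value -/
theorem Emp1_regA {α β μ ν : ℝ} (x y u v : ℤ) (hdet : x * u + y * v = 1) (hx : 0 ≤ x)
    (h1 : 0 ≤ x * μ + y) (h2 : x * ν ≤ y) (hn : 0 < μ + ν) {α' β' μ' ν' : ℝ}
    (hα : α' = x * α) (hβ : β' * (μ + ν) = -(y - x * ν) * α + (y + x * μ) * β)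
    (hμ : μ' = x * (x * μ + y)) (hν : ν' * (μ + ν) = (y - x * ν) * (y + x * μ))
    (h : Emp1 p w (Reg α' β' μ' ν')) : Emp1 p w (Reg α β μ ν) := by
  refine Emp1_flat x y u v hdet ?_ h
  rintro ⟨a, b⟩ T k ⟨hb, hl, hr⟩ ⟨hb', hl', hr'⟩ hk
  simp only at hb hl hr hb' hl' hr'
  push_cast at hl' hr'
  have hx' : (0 : ℝ) ≤ x := by exact_mod_cast hx
  have hb0 : (0 : ℝ) ≤ b := by exact_mod_cast hb
  have hk' : (k : ℝ) ≤ T := by exact_mod_cast hk
  refine ⟨by simp, ?_, ?_⟩
  · simp only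
    push_cast
    rw [hα, hμ]
    have e : (x : ℝ) * a + y * b - (x * α + x * (x * μ + y) * k) =
        x * ((a - y * T) - (α + μ * (b + x * T))) + (x * μ + y) * b + x * (x * μ + y) * (T - k) := by ring
    have p1 : 0 ≤ (x : ℝ) * ((a - y * T) - (α + μ * (b + x * T))) := mul_nonneg hx' (by linarith)
    have p2 : 0 ≤ ((x : ℝ) * μ + y) * b := mul_nonneg h1 hb0
    have p3 : 0 ≤ (x : ℝ) * (x * μ + y) * (T - k) := mul_nonneg (mul_nonneg hx' h1) (by linarith)
    linarith
  · simp only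
    push_cast
    have e : (μ + ν) * (β' - ν' * k - (x * a + y * b)) =
        (y - x * ν) * ((a - y * T) - (α + μ * (b + x * T))) + (y + x * μ) * (β - ν * b - a)
          + (y - x * ν) * (y + x * μ) * (T - k) := by
      linear_combination hβ - k * hν
    have p1 : 0 ≤ ((y : ℝ) - x * ν) * ((a - y * T) - (α + μ * (b + x * T))) :=
      mul_nonneg (by linarith) (by linarith)
    have p2 : 0 ≤ ((y : ℝ) + x * μ) * (β - ν * b - a) := mul_nonneg (by linarith) (by linarith)
    have p3 : 0 ≤ ((y : ℝ) - x * ν) * (y + x * μ) * (T - k) :=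
      mul_nonneg (mul_nonneg (by linarith) (by linarith)) (by linarith)
    have p4 : 0 ≤ (μ + ν) * (β' - ν' * k - (x * a + y * b)) := by rw [e]; linarith
    have p5 := nonneg_of_mul_nonneg_right p4 hn
    linarith

end Pool.Agent.TH545.CF
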