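import Mathlib
import Pool.Agent.TH545.CF.Mov

/-! The final step in every characteristic: all points on the line `y = 1`. -/

set_option autoImplicit false

namespace Pool.Agent.TH545.CF

open Pool.Agent.TH603.EL
open Pool.Agent.TH176.Nag (evL evL_mon Reg)

section psi
variable {K : Type} [Field K]

/-- double power series without terms of degree less than `w` -/
noncomputable def VI (K : Type) [Field K] (w : ℕ) : Ideal (PowerSeries (PowerSeries K)) where
  carrier := {u | ∀ k j, k + j < w → PowerSeries.coeff j (PowerSeries.coeff k u) = 0}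
  add_mem' := fun {u v} hu hv k j h => by
    rw [map_add, map_add, hu k j h, hv k j h, add_zero]
  zero_mem' := fun k j _ => by simp
  smul_mem' := fun c u hu k j h => by
    rw [smul_eq_mul, PowerSeries.coeff_mul, map_sum]
    refine Finset.sum_eq_zero fun q hq => ?_
    rw [Finset.HasAntidiagonal.mem_antidiagonal] at hq
    rw [PowerSeries.coeff_mul]
    refine Finset.sum_eq_zero fun r hr => ?_
    rw [Finset.HasAntidiagonal.mem_antidiagonal] at hr
    rw [hu q.2 r.2 (by omega), mul_zero]

theorem mem_VI {w : ℕ} {u : PowerSeries (PowerSeries K)} :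
    u ∈ VI K w ↔ ∀ k j, k + j < w → PowerSeries.coeff j (PowerSeries.coeff k u) = 0 := Iff.rfl

theorem VI_mul (a b : ℕ) : VI K a * VI K b ≤ VI K (a + b) := by
  rw [Ideal.mul_le]
  intro u hu v hv k j h
  rw [PowerSeries.coeff_mul, map_sum]
  refine Finset.sum_eq_zero fun q hq => ?_
  rw [Finset.HasAntidiagonal.mem_antidiagonal] at hq
  rw [PowerSeries.coeff_mul]
  refine Finset.sum_eq_zero fun r hr => ?_
  rw [Finset.HasAntidiagonal.mem_antidiagonal] at hr
  by_cases h1 : q.1 + r.1 < a
  · rw [hu q.1 r.1 h1, zero_mul]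
  · rw [hv q.2 r.2 (by omega), mul_zero]

theorem VI_pow (w : ℕ) : VI K 1 ^ w ≤ VI K w := by
  induction w with
  | zero =>
    intro u _ k j h
    exact absurd h (by omega)
  | succ w ih =>
    rw [Submodule.pow_succ]
    exact (Ideal.mul_mono_left ih).trans (VI_mul _ _)

theorem isUnit_xu {x : K} (hx : x ≠ 0) : IsUnit (PowerSeries.C x + PowerSeries.X) := by
  rw [PowerSeries.isUnit_iff_constantCoeff]
  simpa using hx

theorem isUnit_yu : IsUnit (1 + PowerSeries.X : PowerSeries (PowerSeries K)) := by
  rw [PowerSeries.isUnit_iff_constantCoeff]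
  simp

/-- the characters `(x + u) ^ i (1 + t) ^ j` -/
noncomputable def pchr {x : K} (hx : x ≠ 0) :
    Multiplicative (ℤ × ℤ) →* PowerSeries (PowerSeries K) where
  toFun m := PowerSeries.C (((isUnit_xu hx).unit ^ m.toAdd.1 : (PowerSeries K)ˣ) : PowerSeries K) *
    (((isUnit_yu (K := K)).unit ^ m.toAdd.2 : (PowerSeries (PowerSeries K))ˣ) :
      PowerSeries (PowerSeries K))
  map_one' := by simp
  map_mul' m m' := by
    simp only [toAdd_mul, Prod.fst_add, Prod.snd_add]
    rw [zpow_add, zpow_add, Units.val_mul, Units.val_mul, map_mul]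
    ring

/-- the expansion at the point `(x, 1)` -/
noncomputable def psi {x : K} (hx : x ≠ 0) : Lau K →+* PowerSeries (PowerSeries K) :=
  AddMonoidAlgebra.liftNCRingHom
    ((PowerSeries.C : PowerSeries K →+* PowerSeries (PowerSeries K)).comp
      (PowerSeries.C : K →+* PowerSeries K)) (pchr hx) (fun _ _ => Commute.all _ _)

theorem psi_single {x : K} (hx : x ≠ 0) (m : ℤ × ℤ) (c : K) :
    psi hx (AddMonoidAlgebra.single m c) =
      PowerSeries.C (PowerSeries.C c) *
        (PowerSeries.C (((isUnit_xu hx).unit ^ m.1 : (PowerSeries K)ˣ) : PowerSeries K) *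
        (((isUnit_yu (K := K)).unit ^ m.2 : (PowerSeries (PowerSeries K))ˣ) :
          PowerSeries (PowerSeries K))) := by
  unfold psi
  rw [AddMonoidAlgebra.liftNCRingHom_single]
  rfl

theorem psi_mem {x : K} (hx : x ≠ 0) {w : ℕ} {f : Lau K}
    (hf : f ∈ ptI hx (one_ne_zero (α := K)) ^ w) : psi hx f ∈ VI K w := by
  apply VI_pow
  have h1 := Ideal.mem_map_of_mem (psi hx) hf
  rw [Ideal.map_pow] at h1
  refine Ideal.pow_right_mono (Ideal.map_le_iff_le_comap.2 fun g hg k j hkj => ?_) w h1
  have hk : k = 0 := by omega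
  have hj : j = 0 := by omega
  subst hk hj
  -- the constant term is the value
  obtain ⟨Ψ, hΨ⟩ : ∃ Ψ : Lau K →+* K, Ψ = ((PowerSeries.constantCoeff (R := K)).comp
      (PowerSeries.constantCoeff (R := PowerSeries K))).comp (psi hx) := ⟨_, rfl⟩
  have h2 : Ψ = ((evL x 1 hx one_ne_zero : Lau K →ₐ[K] K) : Lau K →+* K) := by
    refine AddMonoidAlgebra.ringHom_ext (fun c => ?_) fun m => ?_
    · rw [RingHom.coe_coe, evL_const, hΨ, RingHom.comp_apply, psi_single]
      simp
    · rw [RingHom.coe_coe]
      refine Eq.trans ?_ (evL_mon x 1 hx one_ne_zero m).symm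
      rw [hΨ, RingHom.comp_apply, psi_single, one_zpow, mul_one]
      have e1 : ∀ k : ℤ, PowerSeries.constantCoeff
          (((isUnit_xu hx).unit ^ k : (PowerSeries K)ˣ) : PowerSeries K) = x ^ k := by
        intro k
        have h3 : Units.map (PowerSeries.constantCoeff (R := K) : PowerSeries K →* K)
            (isUnit_xu hx).unit = Units.mk0 x hx := by
          ext
          simp
        have h4 := congrArg (fun u : Kˣ => ((u ^ k : Kˣ) : K)) h3
        simp only [← map_zpow, Units.coe_map, Units.val_zpow_eq_zpow_val, Units.val_mk0] at h4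
        exact h4
      have e2 : ∀ k : ℤ, PowerSeries.constantCoeff
          (((isUnit_yu (K := K)).unit ^ k : (PowerSeries (PowerSeries K))ˣ) :
            PowerSeries (PowerSeries K)) = 1 := by
        intro k
        have h3 : Units.map (PowerSeries.constantCoeff (R := PowerSeries K) :
            PowerSeries (PowerSeries K) →* PowerSeries K) (isUnit_yu (K := K)).unit = 1 := by
          ext1
          simp
        have h4 := congrArg (fun u : (PowerSeries K)ˣ => ((u ^ k : (PowerSeries K)ˣ) :
          PowerSeries K)) h3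
        simp only [← map_zpow, Units.coe_map, one_zpow, Units.val_one] at h4
        exact h4
      rw [RingHom.comp_apply, map_mul, map_mul, map_mul, map_mul, e2]
      simp only [PowerSeries.constantCoeff_C, map_one, one_mul, mul_one]
      exact e1 m.1
  have h5 : Ψ g = 0 := by
    rw [h2]
    exact hg
  rw [PowerSeries.coeff_zero_eq_constantCoeff_apply, PowerSeries.coeff_zero_eq_constantCoeff_apply]
  rw [hΨ] at h5
  exact h5

end psi

end Pool.Agent.TH545.CF
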