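import Mathlib
import Pool.Agent.TH545.CF.Mov
import Pool.Agent.TH603.EL.Lead
import Pool.Agent.TH603.EL.TubeH
import Pool.Agent.TH603.EL.Van2

/-! The key lemma in every characteristic. -/

set_option autoImplicit false

namespace Pool.Agent.TH545.CF

open Pool.Agent.TH603.EL
open Pool.Agent.TH176.Nag (evL evL_mon Reg)

section units
variable {F : Type} [Field F]

theorem isUnit_of_low {x : HR F} {a : ℝ} {m : ℤ × ℤ} (hl : Low x a)
    (hc : x.coeff a = AddMonoidAlgebra.single m 1) : IsUnit x := by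
  have hne : x.coeff a ≠ 0 := by
    rw [hc]
    intro h
    have h1 := congrArg (fun f : Lau F => f.coeff m) h
    simp at h1
  have hx : x ≠ 0 := by
    rintro rfl
    exact hne HahnSeries.coeff_zero
  have ho : x.order = a := by
    refine le_antisymm (HahnSeries.order_le_of_coeff_ne_zero hne) ?_
    by_contra hcon
    rw [not_le] at hcon
    exact (HahnSeries.coeff_order_eq_zero.not.2 hx) (hl _ hcon)
  have hu : IsUnit (AddMonoidAlgebra.single m 1 : Lau F) := by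
    refine IsUnit.of_mul_eq_one (AddMonoidAlgebra.single (-m) 1) ?_
    rw [AddMonoidAlgebra.single_mul_single, add_neg_cancel, one_mul]
    rfl
  refine HahnSeries.isUnit_of_isUnit_leadingCoeff_AddUnitOrder ?_ ?_
  · rw [HahnSeries.leadingCoeff_eq, ho, hc]
    exact hu
  · exact AddGroup.isAddUnit _

theorem isUnit_tube {τ s : ℝ} (h0 : 0 < τ) (h1 : τ < 1) (hs : 1 ≤ s) (l : ZMod 3) :
    IsUnit (tube F τ s l) := by
  rcases Canc.three l with rfl | rfl | rfl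
  · have e : tube F τ s 0 = theta F τ 0 := by
      unfold tube
      rw [if_neg (by decide), add_zero]
    rw [e]
    exact isUnit_of_low (m := 0) (low_theta h0.le h1.le 0) (coeff_theta0 h0 h1)
  · have e : tube F τ s 1 = theta F τ 1 := by
      unfold tube
      rw [if_neg (by decide), add_zero]
    rw [e]
    exact isUnit_of_low (low_theta1 h0 h1) (coeff_theta1 h0 h1)
  · have e : tube F τ s 2 = theta F τ 2 + tz F s 0 1 := by
      unfold tube
      rw [if_pos rfl]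
    rw [e]
    refine isUnit_of_low (a := 1 - τ) (m := (-1, 0))
      ((low_theta2 h0 h1).add ((low_tz s 0 1).mono (by linarith))) ?_
    rw [HahnSeries.coeff_add, coeff_theta2 h0 h1, (low_tz s 0 1) (1 - τ) (by linarith), add_zero]

end units

section hom
variable {F : Type} [Field F]

theorem grp {G : Type*} [CommGroup G] (a b c : G) (d : ℕ) (i j : ℤ) :
    a ^ d * ((b / a) ^ i * (c / a) ^ j) = a ^ ((d : ℤ) - i - j) * b ^ i * c ^ j := by
  rw [div_zpow, div_zpow, zpow_sub, zpow_sub, zpow_natCast]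
  simp only [div_eq_mul_inv]
  rw [mul_mul_mul_comm, ← mul_assoc, ← mul_assoc]
  rw [show a ^ d * (a ^ i)⁻¹ * (a ^ j)⁻¹ * b ^ i * c ^ j =
    a ^ d * b ^ i * c ^ j * (a ^ i)⁻¹ * (a ^ j)⁻¹ by ac_rfl]
  ac_rfl

theorem grp2 {G : Type*} [CommGroup G] (a b c d : G) : a * b * (c * d) = a * c * (b * d) :=
  mul_mul_mul_comm _ _ _ _

/-- characters from two units -/
noncomputable def uchr (u v : (HR F)ˣ) : Multiplicative (ℤ × ℤ) →* HR F where
  toFun m := ((u ^ m.toAdd.1 * v ^ m.toAdd.2 : (HR F)ˣ) : HR F)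
  map_one' := by simp
  map_mul' m m' := by
    simp only [toAdd_mul, Prod.fst_add, Prod.snd_add]
    rw [zpow_add, zpow_add, ← Units.val_mul]
    exact congrArg Units.val (grp2 (G := (HR F)ˣ) _ _ _ _)

/-- the substitution `x ↦ u`, `y ↦ v` -/
noncomputable def uHom (u v : (HR F)ˣ) : Lau (HK F) →+* HR F :=
  AddMonoidAlgebra.liftNCRingHom (incl : HK F →+* HR F) (uchr u v) (fun _ _ => Commute.all _ _)

theorem uHom_single (u v : (HR F)ˣ) (m : ℤ × ℤ) (c : HK F) :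
    uHom u v (AddMonoidAlgebra.single m c) =
      incl c * ((u ^ m.1 * v ^ m.2 : (HR F)ˣ) : HR F) := by
  unfold uHom
  rw [AddMonoidAlgebra.liftNCRingHom_single]
  rfl

theorem uHom_eq (u v : (HR F)ˣ) (f : Lau (HK F)) : uHom u v f =
    ∑ m ∈ f.coeff.support, incl (f.coeff m) * ((u ^ m.1 * v ^ m.2 : (HR F)ˣ) : HR F) := by
  have h : f = ∑ m ∈ f.coeff.support, AddMonoidAlgebra.single m (f.coeff m) := by
    apply AddMonoidAlgebra.coeff_injective
    rw [AddMonoidAlgebra.coeff_sum]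
    conv_lhs => rw [← Finsupp.sum_single f.coeff]
    rfl
  conv_lhs => rw [h, map_sum]
  exact Finset.sum_congr rfl fun m _ => uHom_single u v m _

theorem uHom_hom (U : ZMod 3 → (HR F)ˣ) {d : ℕ} (f : Lau (HK F))
    (hf : ∀ m ∈ f.coeff.support, 0 ≤ m.1 ∧ 0 ≤ m.2 ∧ m.1 + m.2 ≤ (d : ℤ)) :
    ((U 0 ^ d : (HR F)ˣ) : HR F) * uHom (U 1 / U 0) (U 2 / U 0) f =
      ev (fun l => (U l : HR F)) (hom d f.coeff) := by
  rw [uHom_eq, Finset.mul_sum]
  unfold hom Finsupp.sum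
  rw [map_sum]
  refine Finset.sum_congr rfl fun m hm => ?_
  obtain ⟨h1, h2, h3⟩ := hf m hm
  have e1 : ev (fun l => (U l : HR F)) (MvPolynomial.C (f.coeff m) *
      (MvPolynomial.X 0 ^ ((d : ℤ) - m.1 - m.2).toNat * MvPolynomial.X 1 ^ m.1.toNat *
        MvPolynomial.X 2 ^ m.2.toNat)) = incl (f.coeff m) *
      (((U 0 ^ ((d : ℤ) - m.1 - m.2).toNat * U 1 ^ m.1.toNat * U 2 ^ m.2.toNat : (HR F)ˣ)) :
        HR F) := by
    simp only [map_mul, map_pow, ev_X, ev_C, Units.val_mul, Units.val_pow_eq_pow_val]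
  rw [e1, mul_left_comm, ← Units.val_mul]
  congr 2
  have q1 : U 0 ^ ((d : ℤ) - m.1 - m.2).toNat = U 0 ^ ((d : ℤ) - m.1 - m.2) := by
    conv_rhs => rw [← Int.toNat_of_nonneg (show 0 ≤ (d : ℤ) - m.1 - m.2 by omega)]
    rw [zpow_natCast]
  have q2 : U 1 ^ m.1.toNat = U 1 ^ m.1 := by
    conv_rhs => rw [← Int.toNat_of_nonneg h1]
    rw [zpow_natCast]
  have q3 : U 2 ^ m.2.toNat = U 2 ^ m.2 := by
    conv_rhs => rw [← Int.toNat_of_nonneg h2]
    rw [zpow_natCast]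
  rw [q1, q2, q3]
  exact grp (G := (HR F)ˣ) _ _ _ _ _ _

end hom

theorem Emp1_key {p : ℕ} {ι : Type} {w : ι → ℕ} {d : ℕ} {τ : ℝ} (h0 : 0 < τ) (h1 : τ < 1)
    (h : Emp1 p w (Reg (-((d : ℝ) * (1 + τ))) (d * (2 - τ)) (3 * (1 + τ)) (3 * (2 - τ)))) :
    Emp1 p w {m : ℤ × ℤ | 0 ≤ m.1 ∧ 0 ≤ m.2 ∧ m.1 + m.2 ≤ (d : ℤ)} := by
  have h' : Emp1 p w {m : ℤ × ℤ | ((m.1 - m.2, m.2) : ℤ × ℤ) ∈
      Reg (-((d : ℝ) * (1 + τ))) (d * (2 - τ)) (3 * (1 + τ)) (3 * (2 - τ))} := by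
    refine h.comap 1 (-1) 0 1 0 0 (by norm_num) ?_
    intro m hm
    have e : ((1 * m.1 + -1 * m.2 + 0, 0 * m.1 + 1 * m.2 + 0) : ℤ × ℤ) = (m.1 - m.2, m.2) := by
      ext <;> simp
      ring
    rw [e]
    exact hm
  obtain ⟨s, hs⟩ : ∃ s : ℝ, s = 3 * (d : ℝ) + 4 := ⟨_, rfl⟩
  have hd : (0 : ℝ) ≤ d := Nat.cast_nonneg d
  have hs1 : 3 * (d : ℝ) + 3 < s := by rw [hs]; linarith
  have hs2 : 1 ≤ s := by rw [hs]; linarith
  refine h'.of_hom (fun K _ => uHom ((isUnit_tube (F := K) h0 h1 hs2 1).unit /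
      (isUnit_tube (F := K) h0 h1 hs2 0).unit) ((isUnit_tube (F := K) h0 h1 hs2 2).unit /
      (isUnit_tube (F := K) h0 h1 hs2 0).unit)) (fun K _ c => ?_) (fun K _ f hne hf => ?_)
  · rw [uHom_single]
    simp
  · have hf' : ∀ m ∈ f.coeff.support, 0 ≤ m.1 ∧ 0 ≤ m.2 ∧ m.1 + m.2 ≤ (d : ℤ) :=
      fun m hm => hf hm
    have hne' : f.coeff ≠ 0 := fun h => hne (AddMonoidAlgebra.coeff_injective h)
    obtain ⟨a, ha, hb⟩ := tube_lead h0 h1 (hom_isHomogeneous hf') (hom_ne_zero hf' hne') hs1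
    have key := uHom_hom (fun l => (isUnit_tube (F := K) h0 h1 hs2 l).unit) f hf'
    have e2 : (fun l => (((isUnit_tube (F := K) h0 h1 hs2 l).unit : (HR K)ˣ) : HR K)) =
        tube K τ s := rfl
    rw [e2] at key
    refine ⟨_, a, by rw [key]; exact ha, fun m hm => ?_⟩
    rw [key] at hm
    obtain ⟨h3, h4, h5⟩ := hb m.1 m.2 hm
    refine ⟨h3, ?_, ?_⟩
    · push_cast
      linarith
    · push_cast
      linarith

end Pool.Agent.TH545.CF
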